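import Mathlib
import Pool.Agent.J4.H7.C39.GridIff
import Pool.Agent.J4.H7.C39.Forward2
import Pool.Agent.J4.H7.C39.Two3

/-!
# Quadratic generation of join-meet algebras of planar distributive lattices

For every field `K` and every finite simple planar distributive lattice `L`, the defining ideal of
the join-meet algebra of `L` over `K` is generated by quadrics if and only if `L` has at most one
interval isomorphic to the `3 × 3` grid.
-/

namespace Pool.Agent.Results.MP_c39200_al.QuadraticIffOneGrid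

open MvPolynomial

/-- The unordered pairs of incomparable elements of `L`. -/
def IncomparablePair (L : Type*) [Lattice L] : Type _ :=
  {z : Sym2 L // ∃ a b : L, z = s(a, b) ∧ ¬ a ≤ b ∧ ¬ b ≤ a}

/-- The polynomial `x_a x_b - x_{a ⊔ b} x_{a ⊓ b}` of an unordered pair `{a, b}`. -/
noncomputable def joinMeet (K L : Type*) [Field K] [Lattice L] : Sym2 L → MvPolynomial L K :=
  Sym2.lift ⟨fun a b => X a * X b - X (a ⊔ b) * X (a ⊓ b), fun a b => by
    dsimp only
    rw [mul_comm (X a), sup_comm, inf_comm]⟩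

/-- The defining ideal of the join-meet algebra: the kernel of the map sending the variable of the
unordered incomparable pair `{a, b}` to `x_a x_b - x_{a ⊔ b} x_{a ⊓ b}`. -/
noncomputable def definingIdeal (K L : Type*) [Field K] [Lattice L] :
    Ideal (MvPolynomial (IncomparablePair L) K) :=
  RingHom.ker (aeval (fun z : IncomparablePair L => joinMeet K L z.1) :
    MvPolynomial (IncomparablePair L) K →ₐ[K] MvPolynomial L K)

/-- The ideal is generated by homogeneous polynomials of degree two. -/
def GeneratedByQuadrics {σ K : Type*} [Field K] (I : Ideal (MvPolynomial σ K)) : Prop :=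
  ∃ S : Set (MvPolynomial σ K), (∀ q ∈ S, q.IsHomogeneous 2) ∧ I = Ideal.span S

/-- The only elements comparable to all elements are the least and the greatest one. -/
def IsSimpleLattice (L : Type*) [Lattice L] [BoundedOrder L] : Prop :=
  ∀ a : L, (∀ b, a ≤ b ∨ b ≤ a) → a = ⊥ ∨ a = ⊤

/-- Every three join-irreducible elements contain a comparable pair. -/
def IsPlanarLattice (L : Type*) [Lattice L] : Prop :=
  ∀ a b c : L, SupIrred a → SupIrred b → SupIrred c →
    (a ≤ b ∨ b ≤ a) ∨ (a ≤ c ∨ c ≤ a) ∨ (b ≤ c ∨ c ≤ b)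

/-- There is at most one interval isomorphic to the `3 × 3` grid. -/
def AtMostOneGrid (L : Type*) [Lattice L] : Prop :=
  ∀ u v u' v' : L, Nonempty (Set.Icc u v ≃o Fin 3 × Fin 3) →
    Nonempty (Set.Icc u' v' ≃o Fin 3 × Fin 3) → Set.Icc u v = Set.Icc u' v'

open Pool.Agent.J4.H7.C39

theorem generated_iff {σ K A : Type*} [Field K] [CommRing A] [Algebra K A] (g : σ → A) :
    GeneratedByQuadrics (RingHom.ker (aeval g : MvPolynomial σ K →ₐ[K] A)) ↔ Quad K g := by
  constructor
  · rintro ⟨S, hS, hI⟩ p hp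
    have h1 : p ∈ RingHom.ker (aeval g : MvPolynomial σ K →ₐ[K] A) := hp
    rw [hI] at h1
    refine Ideal.span_mono ?_ h1
    intro q hq
    refine ⟨hS q hq, ?_⟩
    have h2 : q ∈ Ideal.span S := Ideal.subset_span hq
    rw [← hI] at h2
    exact h2
  · intro h
    refine ⟨{q | q.IsHomogeneous 2 ∧ aeval g q = 0}, fun q hq => hq.1, le_antisymm ?_ ?_⟩
    · intro p hp
      exact h p hp
    · rw [Ideal.span_le]
      intro q hq
      exact hq.2

theorem quad_injective {σ K A A' : Type*} [Field K] [CommRing A] [Algebra K A] [CommRing A']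
    [Algebra K A'] (Ψ : A →ₐ[K] A') (hΨ : Function.Injective Ψ) (g : σ → A) :
    Quad K g ↔ Quad K (fun i => Ψ (g i)) := by
  have h : ∀ p : MvPolynomial σ K, aeval (fun i => Ψ (g i)) p = 0 ↔ aeval g p = 0 := by
    intro p
    have h1 : aeval (fun i => Ψ (g i)) p = Ψ (aeval g p) := by
      have h2 : (aeval (fun i => Ψ (g i)) : MvPolynomial σ K →ₐ[K] A') = Ψ.comp (aeval g) := by
        apply MvPolynomial.algHom_ext
        intro i
        simp
      rw [h2]
      rfl
    rw [h1]
    exact map_eq_zero_iff Ψ hΨ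
  unfold Quad
  simp only [h]

theorem quad_equiv {σ τ K A : Type*} [Field K] [CommRing A] [Algebra K A] (e : σ ≃ τ)
    (g : τ → A) : Quad K (g ∘ e) ↔ Quad K g := by
  constructor
  · exact Quad.of_equiv e
  · intro h
    apply Quad.of_equiv e.symm
    have : (g ∘ e) ∘ e.symm = g := by ext; simp
    rw [this]
    exact h

section bij

variable {L : Type*} [DistribLattice L] [BoundedOrder L] [Finite L]
variable {c : {p : L // SupIrred p} → Bool}

/-- The bounding box of an unordered pair. -/
noncomputable def bx (c : {p : L // SupIrred p} → Bool) : Sym2 L → (ℤ × ℤ) × (ℤ × ℤ) :=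
  Sym2.lift ⟨fun a b => box (phi c a) (phi c b), fun _ _ => box_comm _ _⟩

theorem bx_mem (hc : ∀ p q, c p = c q → p ≤ q ∨ q ≤ p) (z : IncomparablePair L) :
    bx c z.1 ∈ Ys (Set.range (phi c)) := by
  obtain ⟨z, a, b, rfl, h1, h2⟩ := z
  rw [← phi_le hc] at h1
  rw [← phi_le hc] at h2
  have ha : ((phi c a).1, (phi c a).2) ∈ Set.range (phi c) := ⟨a, rfl⟩
  have hb : ((phi c b).1, (phi c b).2) ∈ Set.range (phi c) := ⟨b, rfl⟩
  simp only [bx, Sym2.lift_mk, box, Ys, Set.mem_ofPred_eq]
  by_cases h : (phi c a).1 < (phi c b).1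
  · rw [min_eq_left (by omega), max_eq_right (by omega), min_eq_right (by omega),
      max_eq_left (by omega)]
    exact ⟨by omega, by omega, ha, hb⟩
  · rw [min_eq_right (by omega), max_eq_left (by omega), min_eq_left (by omega),
      max_eq_right (by omega)]
    exact ⟨by omega, by omega, hb, ha⟩

theorem bx_bij (hc : ∀ p q, c p = c q → p ≤ q ∨ q ≤ p) : Function.Bijective
    (fun z : IncomparablePair L => (⟨bx c z.1, bx_mem hc z⟩ : Ys (Set.range (phi c)))) := by
  constructor
  · rintro ⟨z, a, b, rfl, h1, h2⟩ ⟨z', a', b', rfl, h1', h2'⟩ h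
    rw [← phi_le hc] at h1
    rw [← phi_le hc] at h2
    rw [← phi_le hc] at h1'
    rw [← phi_le hc] at h2'
    have h3 := congrArg (fun w : Ys (Set.range (phi c)) => (w : (ℤ × ℤ) × (ℤ × ℤ))) h
    simp only [bx, Sym2.lift_mk, box, Prod.mk.injEq] at h3
    have h4 : (phi c a = phi c a' ∧ phi c b = phi c b') ∨
        (phi c a = phi c b' ∧ phi c b = phi c a') := by
      have h5 : ((phi c a).1 = (phi c a').1 ∧ (phi c a).2 = (phi c a').2 ∧
          (phi c b).1 = (phi c b').1 ∧ (phi c b).2 = (phi c b').2) ∨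
          ((phi c a).1 = (phi c b').1 ∧ (phi c a).2 = (phi c b').2 ∧
          (phi c b).1 = (phi c a').1 ∧ (phi c b).2 = (phi c a').2) := by omega
      rcases h5 with ⟨g1, g2, g3, g4⟩ | ⟨g1, g2, g3, g4⟩
      · left; exact ⟨Prod.ext g1 g2, Prod.ext g3 g4⟩
      · right; exact ⟨Prod.ext g1 g2, Prod.ext g3 g4⟩
    apply Subtype.ext
    change s(a, b) = s(a', b')
    rcases h4 with ⟨g1, g2⟩ | ⟨g1, g2⟩
    · rw [phi_inj hc g1, phi_inj hc g2]
    · rw [phi_inj hc g1, phi_inj hc g2]
      exact Sym2.eq_swap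
  · rintro ⟨u, hu1, hu2, ⟨a, ha⟩, ⟨b, hb⟩⟩
    have h1 : ¬ a ≤ b := by
      rw [← phi_le hc, ha, hb]; simp only; omega
    have h2 : ¬ b ≤ a := by
      rw [← phi_le hc, ha, hb]; simp only; omega
    refine ⟨⟨s(a, b), a, b, rfl, h1, h2⟩, ?_⟩
    apply Subtype.ext
    simp only [bx, Sym2.lift_mk, ha, hb]
    exact (box_corners hu1 hu2).1

theorem rename_joinMeet (K : Type*) [Field K] (hc : ∀ p q, c p = c q → p ≤ q ∨ q ≤ p)
    (z : IncomparablePair L) :
    rename (phi c) (joinMeet K L z.1) = Fp K (bx c z.1) := by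
  obtain ⟨z, a, b, rfl, h1, h2⟩ := z
  rw [← phi_le hc] at h1
  rw [← phi_le hc] at h2
  simp only [joinMeet, bx, Sym2.lift_mk, map_sub, map_mul, rename_X, phi_sup hc, phi_inf hc, Fp,
    box]
  have ha : phi c a = ((phi c a).1, (phi c a).2) := rfl
  have hb : phi c b = ((phi c b).1, (phi c b).2) := rfl
  by_cases h : (phi c a).1 < (phi c b).1
  · rw [min_eq_left (show (phi c a).1 ≤ (phi c b).1 by omega),
      max_eq_right (show (phi c a).1 ≤ (phi c b).1 by omega),
      min_eq_right (show (phi c b).2 ≤ (phi c a).2 by omega),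
      max_eq_left (show (phi c b).2 ≤ (phi c a).2 by omega)]
  · rw [min_eq_right (show (phi c b).1 ≤ (phi c a).1 by omega),
      max_eq_left (show (phi c b).1 ≤ (phi c a).1 by omega),
      min_eq_left (show (phi c a).2 ≤ (phi c b).2 by omega),
      max_eq_right (show (phi c a).2 ≤ (phi c b).2 by omega)]
    rw [mul_comm (X (phi c a))]

end bij

/-- For every field `K` and every finite simple planar distributive lattice `L`, the defining ideal
of the join-meet algebra of `L` over `K` is generated by quadrics if and only if `L` has at most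
one interval isomorphic to the `3 × 3` grid. -/
theorem result (K : Type*) [Field K] (L : Type*) [DistribLattice L] [BoundedOrder L] [Finite L]
    (hsimple : IsSimpleLattice L) (hplanar : IsPlanarLattice L) :
    GeneratedByQuadrics (definingIdeal K L) ↔ AtMostOneGrid L := by
  classical
  -- the two chains
  obtain ⟨c, hc⟩ : ∃ c : {p : L // SupIrred p} → Bool, ∀ p q, c p = c q → p ≤ q ∨ q ≤ p := by
    have := Fintype.ofFinite {p : L // SupIrred p}
    obtain ⟨c, hc⟩ := exists_split (P := {p : L // SupIrred p})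
      (fun a b d => hplanar a.1 b.1 d.1 a.2 b.2 d.2) _ Finset.univ rfl
    exact ⟨c, fun p q h => hc p (Finset.mem_univ _) q (Finset.mem_univ _) h⟩
  have hR := phi_reg hc
  have hs := phi_smp hc hsimple
  -- the field
  let F := FractionRing (MvPolynomial (ℤ × ℤ) K)
  let x : ℤ × ℤ → F := fun v => algebraMap (MvPolynomial (ℤ × ℤ) K) F (X v)
  have hx : AlgebraicIndependent K x :=
    (MvPolynomial.algebraicIndependent_X (ℤ × ℤ) K).map'
      (f := IsScalarTower.toAlgHom K (MvPolynomial (ℤ × ℤ) K) F)
      (IsFractionRing.injective (MvPolynomial (ℤ × ℤ) K) F)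
  let Ψ : MvPolynomial L K →ₐ[K] F :=
    (IsScalarTower.toAlgHom K (MvPolynomial (ℤ × ℤ) K) F).comp (rename (phi c))
  have hΨ : Function.Injective Ψ :=
    (IsFractionRing.injective (MvPolynomial (ℤ × ℤ) K) F).comp
      (rename_injective _ (phi_inj hc))
  have hfm : ∀ u, algebraMap (MvPolynomial (ℤ × ℤ) K) F (Fp K u) = fm x u := by
    intro u
    simp [Fp, fm, x]
  -- translate
  have h1 : GeneratedByQuadrics (definingIdeal K L) ↔
      Quad K (fun q : Ys (Set.range (phi c)) => fm x q) := by
    unfold definingIdeal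
    rw [generated_iff, quad_injective Ψ hΨ, ← quad_equiv (Equiv.ofBijective _ (bx_bij hc))]
    have h2 : (fun i : IncomparablePair L => Ψ (joinMeet K L i.1)) =
        (fun q : Ys (Set.range (phi c)) => fm x q) ∘ (Equiv.ofBijective _ (bx_bij hc)) := by
      funext z
      change algebraMap (MvPolynomial (ℤ × ℤ) K) F (rename (phi c) (joinMeet K L z.1)) =
        fm x (bx c z.1)
      rw [rename_joinMeet K hc, hfm]
    rw [h2]
  have h3 : AtMostOneGrid L ↔ ∀ i j k l, Blk (Set.range (phi c)) i j →
      Blk (Set.range (phi c)) k l → i = k ∧ j = l := (blk_iff_grid hc).symm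
  rw [h1, h3]
  exact ⟨fun h => backward hx hR hs h, fun h => forward hx _ hR hs h⟩

end Pool.Agent.Results.MP_c39200_al.QuadraticIffOneGrid
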